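import Mathlib

/-!
# Continuous functions that are polynomial on the chambers of a hyperplane arrangement
-/

set_option autoImplicit false

namespace Pool.Agent.J6H23.PB

open MvPolynomial Topology

variable {n m : ℕ}

/-- the affine functional `x ↦ a · x + b` -/
def aff (a : Fin n → ℝ) (b : ℝ) (x : Fin n → ℝ) : ℝ := ∑ k, a k * x k + b

/-- the polynomial `a · X + b` -/
noncomputable def lp (a : Fin n → ℝ) (b : ℝ) : MvPolynomial (Fin n) ℝ := ∑ k, C (a k) * X k + C b

theorem eval_lp (a : Fin n → ℝ) (b : ℝ) (x : Fin n → ℝ) : eval x (lp a b) = aff a b x := by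
  simp [lp, aff]

theorem aff_combo (a : Fin n → ℝ) (b : ℝ) (x d : Fin n → ℝ) (t : ℝ) :
    aff a b (x + t • d) = aff a b x + t * (∑ k, a k * d k) := by
  simp only [aff, Pi.add_apply, Pi.smul_apply, smul_eq_mul, mul_add, Finset.sum_add_distrib,
    Finset.mul_sum]
  have : ∑ x, a x * (t * d x) = ∑ i, t * (a i * d i) :=
    Finset.sum_congr rfl fun _ _ => by ring
  rw [this]
  ring

theorem aff_diff (a : Fin n → ℝ) (b : ℝ) (x y : Fin n → ℝ) :
    ∑ k, a k * (y - x) k = aff a b y - aff a b x := by
  simp only [aff, Pi.sub_apply, mul_sub, Finset.sum_sub_distrib]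
  ring

theorem continuous_aff (a : Fin n → ℝ) (b : ℝ) : Continuous (aff a b) := by
  unfold aff
  fun_prop

/-- a polynomial that vanishes on a nonempty open set is zero -/
theorem zero_of_open {P : MvPolynomial (Fin n) ℝ} {U : Set (Fin n → ℝ)} (hU : IsOpen U)
    {x0 : Fin n → ℝ} (hx0 : x0 ∈ U) (h : ∀ x ∈ U, eval x P = 0) : P = 0 := by
  obtain ⟨ε, hε, hball⟩ := Metric.isOpen_iff.1 hU x0 hx0
  refine MvPolynomial.funext_set (fun k => Metric.ball (x0 k) ε) (fun k => ?_) fun x hx => ?_
  · rw [Real.ball_eq_Ioo]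
    exact Set.Ioo_infinite (by linarith)
  · rw [map_zero]
    apply h
    apply hball
    rw [Metric.mem_ball, dist_pi_lt_iff hε]
    intro k
    exact hx k (Set.mem_univ k)

theorem exists_ne {P : MvPolynomial (Fin n) ℝ} (hP : P ≠ 0) {U : Set (Fin n → ℝ)} (hU : IsOpen U)
    {x0 : Fin n → ℝ} (hx0 : x0 ∈ U) : ∃ x ∈ U, eval x P ≠ 0 := by
  by_contra hcon
  push Not at hcon
  exact hP (zero_of_open hU hx0 hcon)

theorem eval_bind (z : Fin n → MvPolynomial (Fin n) ℝ) (x : Fin n → ℝ)
    (P : MvPolynomial (Fin n) ℝ) : eval x (bind₁ z P) = eval (fun k => eval x (z k)) P := by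
  induction P using MvPolynomial.induction_on with
  | C r => simp
  | add p q hp hq => simp [hp, hq]
  | mul_X p i hp => simp [hp]

/-- A polynomial that vanishes at the points of the hyperplane near `z0` is divisible by its equation. -/
theorem dvd_of_vanish {a : Fin n → ℝ} {b : ℝ} (ha : a ≠ 0) {P : MvPolynomial (Fin n) ℝ}
    {z0 : Fin n → ℝ} (hz0 : aff a b z0 = 0) {U : Set (Fin n → ℝ)} (hU : IsOpen U) (hz : z0 ∈ U)
    (h : ∀ w ∈ U, aff a b w = 0 → eval w P = 0) : lp a b ∣ P := by
  classical
  have hs : 0 < ∑ k, a k * a k := by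
    obtain ⟨k, hk⟩ := Function.ne_iff.1 ha
    exact Finset.sum_pos' (fun i _ => mul_self_nonneg _) ⟨k, Finset.mem_univ _, mul_self_pos.2 hk⟩
  set s := ∑ k, a k * a k with hsdef
  let z : Fin n → MvPolynomial (Fin n) ℝ := fun k => X k - C (s⁻¹ * a k) * lp a b
  have hzx : ∀ x k, eval x (z k) = x k - s⁻¹ * a k * aff a b x := by
    intro x k
    simp [z, eval_lp]
  let g : (Fin n → ℝ) → (Fin n → ℝ) := fun x k => x k - s⁻¹ * a k * aff a b x
  have hg : Continuous g := by
    have := continuous_aff a b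
    fun_prop
  have hgz : g z0 = z0 := by
    funext k
    simp [g, hz0]
  have hgl : ∀ x, aff a b (g x) = 0 := by
    intro x
    have h1 : g x = x + (-(s⁻¹ * aff a b x)) • a := by
      funext k
      simp only [g, Pi.add_apply, Pi.smul_apply, smul_eq_mul]
      ring
    rw [h1, aff_combo, ← hsdef]
    field_simp
    ring
  have hev : ∀ x, eval x (bind₁ z P) = eval (g x) P := by
    intro x
    rw [eval_bind]
    congr 2
    funext k
    exact hzx x k
  have hzero : bind₁ z P = 0 := by
    refine zero_of_open (hU.preimage hg) (x0 := z0) (by rw [Set.mem_preimage, hgz]; exact hz) ?_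
    intro x hx
    rw [hev]
    exact h _ hx (hgl x)
  have hq : (Ideal.Quotient.mkₐ ℝ (Ideal.span {lp a b})).comp (bind₁ z) =
      Ideal.Quotient.mkₐ ℝ (Ideal.span {lp a b}) := by
    apply MvPolynomial.algHom_ext
    intro k
    rw [AlgHom.comp_apply, bind₁_X_right]
    simp only [z, map_sub, map_mul, Ideal.Quotient.mkₐ_eq_mk]
    have : (Ideal.Quotient.mk (Ideal.span {lp a b})) (lp a b) = 0 :=
      Ideal.Quotient.eq_zero_iff_mem.2 (Ideal.subset_span rfl)
    rw [this, mul_zero, sub_zero]
  have h1 := congrArg (fun φ => φ P) hq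
  simp only [AlgHom.comp_apply, hzero, map_zero] at h1
  have h2 : (Ideal.Quotient.mk (Ideal.span {lp a b})) P = 0 := h1.symm
  rw [Ideal.Quotient.eq_zero_iff_mem, Ideal.mem_span_singleton] at h2
  exact h2

/-- the sign of a truth value -/
def sg (s : Bool) : ℝ := if s then 1 else -1

theorem sg_mul_self (s : Bool) : sg s * sg s = 1 := by
  cases s <;> simp [sg]

theorem sg_ne {s t : Bool} (h : s ≠ t) : sg s = -sg t := by
  cases s <;> cases t <;> simp_all [sg]

section arrangement

variable (a : Fin m → Fin n → ℝ) (b : Fin m → ℝ)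

/-- the open chamber of the sign vector `σ` -/
def chamber (σ : Fin m → Bool) : Set (Fin n → ℝ) := {x | ∀ i, 0 < sg (σ i) * aff (a i) (b i) x}

theorem chamber_open (σ : Fin m → Bool) : IsOpen (chamber a b σ) := by
  have : chamber a b σ = ⋂ i, {x | 0 < sg (σ i) * aff (a i) (b i) x} := by
    ext x
    simp [chamber]
  rw [this]
  refine isOpen_iInter_of_finite fun i => ?_
  exact isOpen_lt continuous_const (continuous_const.mul (continuous_aff _ _))

theorem chamber_closure {σ : Fin m → Bool} {x : Fin n → ℝ} (hx : x ∈ closure (chamber a b σ))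
    (i : Fin m) : 0 ≤ sg (σ i) * aff (a i) (b i) x := by
  have hc : IsClosed {x : Fin n → ℝ | 0 ≤ sg (σ i) * aff (a i) (b i) x} :=
    isClosed_le continuous_const (continuous_const.mul (continuous_aff _ _))
  have h1 : closure (chamber a b σ) ⊆ {x : Fin n → ℝ | 0 ≤ sg (σ i) * aff (a i) (b i) x} :=
    closure_minimal (fun y hy => (hy i).le) hc
  exact h1 hx

theorem closure_of_segment {σ : Fin m → Bool} {w d : Fin n → ℝ}
    (h : ∀ᶠ t in 𝓝[>] (0 : ℝ), w + t • d ∈ chamber a b σ) : w ∈ closure (chamber a b σ) := by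
  have hcont : Continuous fun t : ℝ => w + t • d := by fun_prop
  have h1 : Filter.Tendsto (fun t : ℝ => w + t • d) (𝓝[>] 0) (𝓝 w) := by
    have h2 : Filter.Tendsto (fun t : ℝ => w + t • d) (𝓝 0) (𝓝 (w + (0 : ℝ) • d)) :=
      hcont.tendsto 0
    rw [zero_smul, add_zero] at h2
    exact h2.mono_left nhdsWithin_le_nhds
  exact mem_closure_of_tendsto h1 h

variable {f : (Fin n → ℝ) → ℝ} (hf : Continuous f) (p : (Fin m → Bool) → MvPolynomial (Fin n) ℝ)
  (hp : ∀ σ, ∀ x ∈ chamber a b σ, f x = eval x (p σ))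

include hf hp in
theorem eq_on_closure {σ : Fin m → Bool} {x : Fin n → ℝ} (hx : x ∈ closure (chamber a b σ)) :
    f x = eval x (p σ) := by
  have hc : IsClosed {x : Fin n → ℝ | f x = eval x (p σ)} :=
    isClosed_eq hf (MvPolynomial.continuous_eval _)
  exact closure_minimal (fun y hy => hp σ y hy) hc hx

include hf hp in
/-- The difference of the polynomials of two nonempty chambers lies in the ideal generated by the
equations of the hyperplanes that separate them. -/
theorem key (N : ℕ) : ∀ (σ τ : Fin m → Bool), (Finset.univ.filter fun i => σ i ≠ τ i).card ≤ N →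
    (chamber a b σ).Nonempty → (chamber a b τ).Nonempty →
    ∃ q : Fin m → MvPolynomial (Fin n) ℝ, (∀ i, σ i = τ i → q i = 0) ∧
      p σ - p τ = ∑ i, q i * lp (a i) (b i) := by
  classical
  induction N with
  | zero =>
    intro σ τ hcard _ _
    have h1 : σ = τ := by
      funext i
      by_contra hne
      have : i ∈ Finset.univ.filter fun i => σ i ≠ τ i := Finset.mem_filter.2 ⟨Finset.mem_univ _, hne⟩
      rw [Finset.card_eq_zero.1 (Nat.le_zero.1 hcard)] at this
      simp at this
    exact ⟨0, fun _ _ => rfl, by simp [h1]⟩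
  | succ N ih =>
    intro σ τ hcard hσ hτ
    by_cases hst : σ = τ
    · exact ⟨0, fun _ _ => rfl, by simp [hst]⟩
    obtain ⟨y, hy⟩ := hτ
    obtain ⟨x0, hx0⟩ := hσ
    -- a generic point of the first chamber
    let Q : Fin m × Fin m → MvPolynomial (Fin n) ℝ := fun ij =>
      C (aff (a ij.2) (b ij.2) y) * lp (a ij.1) (b ij.1) -
        C (aff (a ij.1) (b ij.1) y) * lp (a ij.2) (b ij.2)
    have hQe : ∀ i j w, eval w (Q (i, j)) = aff (a j) (b j) y * aff (a i) (b i) w -
        aff (a i) (b i) y * aff (a j) (b j) w := by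
      intro i j w
      simp [Q, eval_lp]
    obtain ⟨x, hx, hgen⟩ : ∃ x ∈ chamber a b σ, ∀ i j,
        aff (a j) (b j) y * aff (a i) (b i) x = aff (a i) (b i) y * aff (a j) (b j) x →
        ∀ w, aff (a j) (b j) y * aff (a i) (b i) w = aff (a i) (b i) y * aff (a j) (b j) w := by
      have hprod : (∏ ij ∈ Finset.univ.filter fun ij => Q ij ≠ 0, Q ij) ≠ 0 := by
        rw [Finset.prod_ne_zero_iff]
        intro ij hij
        exact (Finset.mem_filter.1 hij).2
      obtain ⟨x, hx, hne⟩ := exists_ne hprod (chamber_open a b σ) hx0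
      refine ⟨x, hx, fun i j hij w => ?_⟩
      have h1 : Q (i, j) = 0 := by
        by_contra hQ
        apply hne
        rw [eval_prod]
        refine Finset.prod_eq_zero (Finset.mem_filter.2 ⟨Finset.mem_univ (i, j), hQ⟩) ?_
        rw [hQe, hij, sub_self]
      have h2 := hQe i j w
      rw [h1, map_zero] at h2
      exact sub_eq_zero.1 h2.symm
    -- crossing times
    set S := Finset.univ.filter fun i => σ i ≠ τ i with hS
    have hSne : S.Nonempty := by
      obtain ⟨i, hi⟩ := Function.ne_iff.1 hst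
      exact ⟨i, Finset.mem_filter.2 ⟨Finset.mem_univ _, hi⟩⟩
    let T : Fin m → ℝ := fun i =>
      aff (a i) (b i) x / (aff (a i) (b i) x - aff (a i) (b i) y)
    obtain ⟨i0, hi0, hmax⟩ := S.exists_max_image T hSne
    have hsx : ∀ i, 0 < sg (σ i) * aff (a i) (b i) x := hx
    have hsy : ∀ i, 0 < sg (τ i) * aff (a i) (b i) y := hy
    have hopp : ∀ i ∈ S, sg (τ i) * aff (a i) (b i) x < 0 := by
      intro i hi
      have h1 := hsx i
      rw [sg_ne (Finset.mem_filter.1 hi).2] at h1
      linarith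
    have hden : ∀ i ∈ S, sg (τ i) * (aff (a i) (b i) x - aff (a i) (b i) y) < 0 := by
      intro i hi
      have h1 := hopp i hi
      have h2 := hsy i
      rw [mul_sub]
      linarith
    have hden' : ∀ i ∈ S, aff (a i) (b i) x - aff (a i) (b i) y ≠ 0 := by
      intro i hi h0
      have := hden i hi
      rw [h0, mul_zero] at this
      exact lt_irrefl _ this
    have hT : ∀ i ∈ S, aff (a i) (b i) x = T i * (aff (a i) (b i) x - aff (a i) (b i) y) := by
      intro i hi
      rw [div_mul_cancel₀ _ (hden' i hi)]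
    have hT0 : ∀ i ∈ S, 0 < T i := by
      intro i hi
      have h1 := hopp i hi
      have h2 := hden i hi
      rw [hT i hi] at h1
      by_contra h3
      push Not at h3
      nlinarith
    have hT1 : ∀ i ∈ S, T i < 1 := by
      intro i hi
      have h1 := hsy i
      have h2 := hden i hi
      have h3 := hT i hi
      have h4 : sg (τ i) * aff (a i) (b i) y =
          (T i - 1) * (sg (τ i) * (aff (a i) (b i) x - aff (a i) (b i) y)) := by
        linear_combination sg (τ i) * h3
      rw [h4] at h1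
      by_contra h5
      push Not at h5
      nlinarith
    set t := T i0 with ht
    set d := y - x with hd
    set z := x + t • d with hz
    have haff : ∀ i (w : Fin n → ℝ) (s : ℝ), aff (a i) (b i) (w + s • d) =
        aff (a i) (b i) w + s * (aff (a i) (b i) y - aff (a i) (b i) x) := by
      intro i w s
      rw [aff_combo, hd, aff_diff (a i) (b i) x y]
    let Z := S.filter fun i => T i = t
    have hZS : ∀ i ∈ Z, i ∈ S := fun i hi => (Finset.mem_filter.1 hi).1
    have hi0Z : i0 ∈ Z := Finset.mem_filter.2 ⟨hi0, rfl⟩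
    have hzpos : ∀ i, i ∉ Z → 0 < sg (τ i) * aff (a i) (b i) z := by
      intro i hi
      rw [hz, haff]
      by_cases hiS : i ∈ S
      · have hlt : T i < t := lt_of_le_of_ne (hmax i hiS)
          (fun h => hi (Finset.mem_filter.2 ⟨hiS, h⟩))
        have h1 := hT i hiS
        have h2 := hden i hiS
        have h3 : sg (τ i) * (aff (a i) (b i) x + t * (aff (a i) (b i) y - aff (a i) (b i) x)) =
            (T i - t) * (sg (τ i) * (aff (a i) (b i) x - aff (a i) (b i) y)) := by
          linear_combination sg (τ i) * h1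
        rw [h3]
        nlinarith
      · have h1 : σ i = τ i := by
          by_contra hne
          exact hiS (Finset.mem_filter.2 ⟨Finset.mem_univ _, hne⟩)
        have h2 := hsx i
        rw [h1] at h2
        have h3 := hsy i
        have h4 := hT0 i0 hi0
        have h5 := hT1 i0 hi0
        have h6 : sg (τ i) * (aff (a i) (b i) x + t * (aff (a i) (b i) y - aff (a i) (b i) x)) =
            (1 - t) * (sg (τ i) * aff (a i) (b i) x) + t * (sg (τ i) * aff (a i) (b i) y) := by
          ring
        rw [h6]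
        have h7 : 0 < (1 - t) * (sg (τ i) * aff (a i) (b i) x) := mul_pos (by linarith) h2
        have h8 : 0 < t * (sg (τ i) * aff (a i) (b i) y) := mul_pos h4 h3
        linarith
    have hprop : ∀ i ∈ Z, ∀ w, aff (a i0) (b i0) w = 0 → aff (a i) (b i) w = 0 := by
      intro i hi w hw
      have hiS := hZS i hi
      have hTi : T i = t := (Finset.mem_filter.1 hi).2
      have h1 := hT i hiS
      have h2 := hT i0 hi0
      rw [hTi] at h1
      have h3 : aff (a i0) (b i0) y * aff (a i) (b i) x =
          aff (a i) (b i) y * aff (a i0) (b i0) x := by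
        have h4 := hT1 i0 hi0
        have e1 : (1 - t) * aff (a i) (b i) x = -t * aff (a i) (b i) y := by
          linear_combination h1
        have e2 : (1 - t) * aff (a i0) (b i0) x = -t * aff (a i0) (b i0) y := by
          linear_combination h2
        have h5 : (1 - t) ≠ 0 := by
          have : T i0 < 1 := h4
          intro h6
          rw [ht] at h6
          linarith
        apply mul_left_cancel₀ h5
        linear_combination aff (a i0) (b i0) y * e1 - aff (a i) (b i) y * e2
      have h4 := hgen i i0 h3 w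
      rw [hw, mul_zero] at h4
      have h5 : aff (a i0) (b i0) y ≠ 0 := by
        intro h6
        have := hsy i0
        rw [h6, mul_zero] at this
        exact lt_irrefl _ this
      exact (mul_eq_zero.1 h4).resolve_left h5
    have hz0 : aff (a i0) (b i0) z = 0 := by
      rw [hz, haff]
      have h2 := hT i0 hi0
      linear_combination h2
    -- the chamber in front of the last wall
    let γ : Fin m → Bool := fun i => if i ∈ Z then σ i else τ i
    have hγ1 : ∀ i ∈ Z, γ i = σ i := fun i hi => if_pos hi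
    have hγ2 : ∀ i, i ∉ Z → γ i = τ i := fun i hi => if_neg hi
    let U : Set (Fin n → ℝ) := {w | ∀ i, i ∉ Z → 0 < sg (τ i) * aff (a i) (b i) w}
    have hU : IsOpen U := by
      have : U = ⋂ i, {w | i ∉ Z → 0 < sg (τ i) * aff (a i) (b i) w} := by
        ext w
        simp [U]
      rw [this]
      refine isOpen_iInter_of_finite fun i => ?_
      by_cases hi : i ∈ Z
      · simp [hi]
      · simp only [hi, not_false_eq_true, forall_true_left]
        exact isOpen_lt continuous_const (continuous_const.mul (continuous_aff _ _))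
    have hzU : z ∈ U := hzpos
    have hdir : ∀ i ∈ S, 0 < sg (τ i) * (aff (a i) (b i) y - aff (a i) (b i) x) := by
      intro i hi
      have := hden i hi
      have h1 : sg (τ i) * (aff (a i) (b i) y - aff (a i) (b i) x) =
          -(sg (τ i) * (aff (a i) (b i) x - aff (a i) (b i) y)) := by ring
      rw [h1]
      linarith
    have hUev : ∀ (w e : Fin n → ℝ), w ∈ U → ∀ᶠ s in 𝓝[>] (0 : ℝ), w + s • e ∈ U := by
      intro w e hw
      have hcont : Continuous fun s : ℝ => w + s • e := by fun_prop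
      have h1 : ∀ᶠ s in 𝓝 (0 : ℝ), w + s • e ∈ U := by
        apply hcont.continuousAt.eventually
        apply hU.mem_nhds
        simpa using hw
      exact h1.filter_mono nhdsWithin_le_nhds
    have hpos : ∀ᶠ s in 𝓝[>] (0 : ℝ), 0 < s := eventually_mem_nhdsWithin
    have hcl1 : ∀ w ∈ U, aff (a i0) (b i0) w = 0 → w ∈ closure (chamber a b τ) := by
      intro w hw hw0
      apply closure_of_segment (d := d)
      filter_upwards [hUev w d hw, hpos] with s hs hs0
      intro i
      by_cases hi : i ∈ Z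
      · rw [haff, hprop i hi w hw0, zero_add]
        have := mul_pos hs0 (hdir i (hZS i hi))
        nlinarith
      · exact hs i hi
    have hcl2 : ∀ w ∈ U, aff (a i0) (b i0) w = 0 → w ∈ closure (chamber a b γ) := by
      intro w hw hw0
      apply closure_of_segment (d := -d)
      filter_upwards [hUev w (-d) hw, hpos] with s hs hs0
      intro i
      by_cases hi : i ∈ Z
      · rw [show w + s • -d = w + (-s) • d by rw [smul_neg, neg_smul], haff, hprop i hi w hw0,
          zero_add, hγ1 i hi, sg_ne (Finset.mem_filter.1 (hZS i hi)).2]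
        have := mul_pos hs0 (hdir i (hZS i hi))
        nlinarith
      · rw [hγ2 i hi]
        exact hs i hi
    have hγne : (chamber a b γ).Nonempty := closure_nonempty_iff.1 ⟨z, hcl2 z hzU hz0⟩
    have hai0 : a i0 ≠ 0 := by
      intro h0
      have h1 := hsy i0
      have h2 : ∀ w, aff (a i0) (b i0) w = b i0 := by
        intro w
        simp [aff, h0]
      rw [h2] at hz0
      rw [h2, hz0, mul_zero] at h1
      exact lt_irrefl _ h1
    have hdvd : lp (a i0) (b i0) ∣ p γ - p τ := by
      refine dvd_of_vanish hai0 hz0 hU hzU fun w hw hw0 => ?_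
      rw [map_sub, ← eq_on_closure a b hf p hp (hcl1 w hw hw0),
        ← eq_on_closure a b hf p hp (hcl2 w hw hw0), sub_self]
    obtain ⟨c, hc⟩ := hdvd
    have hcard2 : (Finset.univ.filter fun i => σ i ≠ γ i).card ≤ N := by
      have hsub : (Finset.univ.filter fun i => σ i ≠ γ i) ⊆ S.erase i0 := by
        intro i hi
        have h1 := (Finset.mem_filter.1 hi).2
        have h2 : i ∉ Z := fun h => h1 (hγ1 i h).symm
        rw [Finset.mem_erase]
        refine ⟨fun h => h2 (h ▸ hi0Z), Finset.mem_filter.2 ⟨Finset.mem_univ _, ?_⟩⟩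
        rwa [hγ2 i h2] at h1
      have h3 := Finset.card_le_card hsub
      rw [Finset.card_erase_of_mem hi0] at h3
      omega
    obtain ⟨q, hq1, hq2⟩ := ih σ γ hcard2 ⟨x0, hx0⟩ hγne
    refine ⟨fun i => q i + if i = i0 then c else 0, fun i hi => ?_, ?_⟩
    · have h1 : i ≠ i0 := by
        rintro rfl
        exact (Finset.mem_filter.1 hi0).2 hi
      have h2 : σ i = γ i := by
        by_cases hiZ : i ∈ Z
        · exact (hγ1 i hiZ).symm
        · rw [hγ2 i hiZ, hi]
      change q i + (if i = i0 then c else 0) = 0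
      rw [hq1 i h2, if_neg h1, add_zero]
    · have h1 : p σ - p τ = (p σ - p γ) + (p γ - p τ) := by ring
      rw [h1, hq2, hc]
      simp only [add_mul, Finset.sum_add_distrib, ite_mul, zero_mul, Finset.sum_ite_eq',
        Finset.mem_univ, if_true]
      ring

theorem lp_ne_zero {a : Fin n → ℝ} {b : ℝ} (ha : a ≠ 0) : lp a b ≠ 0 := by
  intro h
  have h1 : ∀ x, aff a b x = 0 := by
    intro x
    rw [← eval_lp, h, map_zero]
  have hb : b = 0 := by
    have := h1 0
    simpa [aff] using this
  apply ha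
  funext k
  have := h1 (Pi.single k 1)
  simpa [aff, hb, Pi.single_apply] using this

theorem mem_closure_chamber (ha : ∀ i, a i ≠ 0) (x : Fin n → ℝ) :
    ∃ σ, x ∈ closure (chamber a b σ) := by
  classical
  have h1 : x ∈ closure (⋃ σ, chamber a b σ) := by
    rw [mem_closure_iff]
    intro U hU hx
    have hprod : (∏ i, lp (a i) (b i)) ≠ 0 := by
      rw [Finset.prod_ne_zero_iff]
      exact fun i _ => lp_ne_zero (ha i)
    obtain ⟨y, hy, hne⟩ := exists_ne hprod hU hx
    refine ⟨y, hy, Set.mem_iUnion.2 ⟨fun i => decide (0 < aff (a i) (b i) y), fun i => ?_⟩⟩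
    rw [eval_prod, Finset.prod_ne_zero_iff] at hne
    have h2 := hne i (Finset.mem_univ i)
    rw [eval_lp] at h2
    rcases lt_or_gt_of_ne h2 with h3 | h3
    · simp [sg, not_lt.2 h3.le, h3]
    · simp [sg, h3]
  rw [closure_iUnion_of_finite] at h1
  exact Set.mem_iUnion.1 h1

include hf hp in
/-- A continuous function which is polynomial on each chamber is a maximum of minima of polynomials. -/
theorem main_chambers (ha : ∀ i, a i ≠ 0) :
    ∃ M K : ℕ, 0 < M ∧ 0 < K ∧ ∃ q : Fin M → Fin K → MvPolynomial (Fin n) ℝ,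
      ∀ x, f x = ⨆ i, ⨅ j, eval x (q i j) := by
  classical
  let 𝒞 := {σ : Fin m → Bool // (chamber a b σ).Nonempty}
  have hkey : ∀ σ τ : 𝒞, ∃ q : Fin m → MvPolynomial (Fin n) ℝ,
      (∀ i, σ.1 i = τ.1 i → q i = 0) ∧ p σ.1 - p τ.1 = ∑ i, q i * lp (a i) (b i) :=
    fun σ τ => key a b hf p hp _ σ.1 τ.1 le_rfl σ.2 τ.2
  choose q hq1 hq2 using hkey
  let h : 𝒞 → 𝒞 → Fin m → MvPolynomial (Fin n) ℝ := fun σ τ i =>
    if σ.1 i = τ.1 i then 0 else C (sg (σ.1 i)) * lp (a i) (b i) * (1 + q σ τ i ^ 2)
  let e : 𝒞 → 𝒞 → MvPolynomial (Fin n) ℝ := fun σ τ => p τ.1 - ∑ i, h σ τ i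
  have hh : ∀ σ τ i x, σ.1 i ≠ τ.1 i → eval x (h σ τ i) =
      sg (σ.1 i) * aff (a i) (b i) x * (1 + (eval x (q σ τ i)) ^ 2) := by
    intro σ τ i x hne
    simp [h, hne, eval_lp]
  have hh0 : ∀ σ τ i x, σ.1 i = τ.1 i → eval x (h σ τ i) = 0 := by
    intro σ τ i x hne
    simp [h, hne]
  have he1 : ∀ (σ τ : 𝒞) x, x ∈ closure (chamber a b σ.1) → eval x (e σ τ) ≤ eval x (p σ.1) := by
    intro σ τ x hx
    have h1 : eval x (p σ.1) = eval x (p τ.1) + ∑ i, eval x (q σ τ i) * aff (a i) (b i) x := by
      have := congrArg (eval x) (hq2 σ τ)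
      rw [map_sub, map_sum] at this
      simp only [map_mul, eval_lp] at this
      linear_combination this
    rw [h1, map_sub, map_sum]
    have h2 : -∑ i, eval x (h σ τ i) ≤ ∑ i, eval x (q σ τ i) * aff (a i) (b i) x := by
      rw [← Finset.sum_neg_distrib]
      refine Finset.sum_le_sum fun i _ => ?_
      by_cases hi : σ.1 i = τ.1 i
      · rw [hh0 σ τ i x hi, hq1 σ τ i hi]
        simp
      · rw [hh σ τ i x hi]
        have h3 := chamber_closure a b hx i
        have h4 := sg_mul_self (σ.1 i)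
        set s := sg (σ.1 i)
        set l := aff (a i) (b i) x
        set v := eval x (q σ τ i)
        have h5 : v * l = (s * v) * (s * l) := by linear_combination (-(v * l)) * h4
        have h6 : 0 ≤ 1 + v ^ 2 + s * v := by
          have : v ^ 2 = (s * v) ^ 2 := by linear_combination (-(v ^ 2)) * h4
          rw [this]
          nlinarith [sq_nonneg (s * v + 1 / 2)]
        rw [h5]
        nlinarith
    linarith
  have he2 : ∀ (σ τ : 𝒞) x, x ∈ closure (chamber a b τ.1) → eval x (p τ.1) ≤ eval x (e σ τ) := by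
    intro σ τ x hx
    rw [map_sub, map_sum]
    have h2 : ∑ i, eval x (h σ τ i) ≤ 0 := by
      refine Finset.sum_nonpos fun i _ => ?_
      by_cases hi : σ.1 i = τ.1 i
      · rw [hh0 σ τ i x hi]
      · rw [hh σ τ i x hi, sg_ne hi]
        have h3 := chamber_closure a b hx i
        nlinarith [sq_nonneg (eval x (q σ τ i))]
    linarith
  have hcov : ∀ x, ∃ ρ : 𝒞, x ∈ closure (chamber a b ρ.1) := by
    intro x
    obtain ⟨σ, hσ⟩ := mem_closure_chamber a b ha x
    exact ⟨⟨σ, closure_nonempty_iff.1 ⟨x, hσ⟩⟩, hσ⟩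
  obtain ⟨ρ0, -⟩ := hcov 0
  have hcard : 0 < Fintype.card 𝒞 := Fintype.card_pos_iff.2 ⟨ρ0⟩
  let E := (Fintype.equivFin 𝒞).symm
  have : Nonempty (Fin (Fintype.card 𝒞)) := ⟨⟨0, hcard⟩⟩
  refine ⟨Fintype.card 𝒞, Fintype.card 𝒞, hcard, hcard, fun i j => e (E j) (E i), fun x => ?_⟩
  obtain ⟨ρ, hρ⟩ := hcov x
  rw [eq_on_closure a b hf p hp hρ]
  apply le_antisymm
  · have h1 : eval x (p ρ.1) ≤ ⨅ j, eval x (e (E j) ρ) := le_ciInf fun j => he2 (E j) ρ x hρ
    have h2 := le_ciSup (f := fun i => ⨅ j, eval x (e (E j) (E i))) (Set.finite_range _).bddAbove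
      (E.symm ρ)
    simp only [Equiv.apply_symm_apply] at h2
    exact h1.trans h2
  · refine ciSup_le fun i => ?_
    have h2 := ciInf_le (f := fun j => eval x (e (E j) (E i))) (Set.finite_range _).bddBelow
      (E.symm ρ)
    simp only [Equiv.apply_symm_apply] at h2
    exact h2.trans (he1 ρ (E i) x hρ)

theorem chamber_convex (σ : Fin m → Bool) : Convex ℝ (chamber a b σ) := by
  intro x hx y hy s t hs ht hst i
  have h1 : aff (a i) (b i) (s • x + t • y) =
      s * aff (a i) (b i) x + t * aff (a i) (b i) y := by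
    simp only [aff, Pi.add_apply, Pi.smul_apply, smul_eq_mul, mul_add, Finset.sum_add_distrib,
      Finset.mul_sum]
    have e1 : ∑ k, a i k * (s * x k) = ∑ k, s * (a i k * x k) :=
      Finset.sum_congr rfl fun _ _ => by ring
    have e2 : ∑ k, a i k * (t * y k) = ∑ k, t * (a i k * y k) :=
      Finset.sum_congr rfl fun _ _ => by ring
    rw [e1, e2]
    linear_combination (-(b i)) * hst
  rw [h1]
  have hx' := hx i
  have hy' := hy i
  have h2 : sg (σ i) * (s * aff (a i) (b i) x + t * aff (a i) (b i) y) =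
      s * (sg (σ i) * aff (a i) (b i) x) + t * (sg (σ i) * aff (a i) (b i) y) := by ring
  rw [h2]
  rcases hs.eq_or_lt with h3 | h3
  · have h4 : t = 1 := by linarith
    rw [← h3, h4]
    linarith
  · have h5 : 0 < s * (sg (σ i) * aff (a i) (b i) x) := mul_pos h3 hx'
    have h6 : 0 ≤ t * (sg (σ i) * aff (a i) (b i) y) := mul_nonneg ht hy'.le
    linarith

/-- A locally polynomial function on a chamber is a polynomial. -/
theorem local_global {f : (Fin n → ℝ) → ℝ} (σ : Fin m → Bool)
    (hloc : ∀ x ∈ chamber a b σ, ∃ P : MvPolynomial (Fin n) ℝ, ∀ᶠ y in 𝓝 x, f y = eval y P) :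
    ∃ P : MvPolynomial (Fin n) ℝ, ∀ x ∈ chamber a b σ, f x = eval x P := by
  by_cases hne : (chamber a b σ).Nonempty
  swap
  · exact ⟨0, fun x hx => absurd ⟨x, hx⟩ hne⟩
  obtain ⟨x0, hx0⟩ := hne
  obtain ⟨P, hP⟩ := hloc x0 hx0
  refine ⟨P, ?_⟩
  let u : Set (Fin n → ℝ) := {x | ∀ᶠ y in 𝓝 x, f y = eval y P}
  let v : Set (Fin n → ℝ) := {x | ∃ P' : MvPolynomial (Fin n) ℝ, P' ≠ P ∧ ∀ᶠ y in 𝓝 x, f y = eval y P'}
  have hu : IsOpen u := isOpen_iff_mem_nhds.2 fun x hx => eventually_eventually_nhds.2 hx
  have hv : IsOpen v := by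
    rw [isOpen_iff_mem_nhds]
    rintro x ⟨P', hne, hx⟩
    filter_upwards [eventually_eventually_nhds.2 hx] with y hy
    exact ⟨P', hne, hy⟩
  have hdisj : Disjoint u v := by
    rw [Set.disjoint_left]
    rintro x hx ⟨P', hne, hx'⟩
    apply hne
    have h1 : ∀ᶠ y in 𝓝 x, eval y (P' - P) = 0 := by
      have hx2 : ∀ᶠ y in 𝓝 x, f y = eval y P := hx
      filter_upwards [hx2, hx'] with y h2 h3
      rw [map_sub, ← h2, ← h3, sub_self]
    obtain ⟨W, hW1, hW2, hW3⟩ := eventually_nhds_iff.1 h1
    exact sub_eq_zero.1 (zero_of_open hW2 hW3 hW1)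
  have hsub : chamber a b σ ⊆ u ∪ v := by
    intro x hx
    obtain ⟨P', hP'⟩ := hloc x hx
    by_cases h : P' = P
    · left
      rw [h] at hP'
      exact hP'
    · right
      exact ⟨P', h, hP'⟩
  have h1 := (chamber_convex a b σ).isPreconnected.subset_left_of_subset_union hu hv hdisj hsub
    ⟨x0, hx0, hP⟩
  intro x hx
  exact (h1 hx).self_of_nhds

theorem main {f : (Fin n → ℝ) → ℝ} (hf : Continuous f) (ha : ∀ i, a i ≠ 0)
    (hloc : ∀ x, (∀ i, ∑ k, a i k * x k + b i ≠ 0) →
      ∃ P : MvPolynomial (Fin n) ℝ, ∀ᶠ y in 𝓝 x, f y = eval y P) :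
    ∃ M K : ℕ, 0 < M ∧ 0 < K ∧ ∃ q : Fin M → Fin K → MvPolynomial (Fin n) ℝ,
      ∀ x, f x = ⨆ i, ⨅ j, eval x (q i j) := by
  have h1 : ∀ σ, ∃ P : MvPolynomial (Fin n) ℝ, ∀ x ∈ chamber a b σ, f x = eval x P := by
    intro σ
    apply local_global
    intro x hx
    apply hloc
    intro i h0
    have h2 := hx i
    unfold aff at h2
    rw [h0, mul_zero] at h2
    exact lt_irrefl _ h2
  choose p hp using h1
  exact main_chambers a b hf p hp ha

end arrangement

end Pool.Agent.J6H23.PB
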